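import Pool.Graph.R_pool_sql_team_seeded_63374d34.N437.RL.Fin5

/-!
Sparse random removal lemma: large edge probabilities. The core estimate of the library is applied
to the parts consisting of one edge.
-/

set_option autoImplicit false

open Finset Filter Topology

namespace Pool.Agent.KS6_83.SR

open Pool.Agent.N437.RL

variable {V : Type} [Fintype V] [DecidableEq V]

theorem vs_biUnion {ι : Type} [DecidableEq ι] (J : Finset ι) (A : ι → Finset (Sym2 V)) :
    vs (J.biUnion A) = J.biUnion fun j => vs (A j) := by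
  ext a
  simp only [mem_vs, mem_biUnion]
  constructor
  · rintro ⟨e, ⟨j, hj, he⟩, ha⟩
    exact ⟨j, hj, e, he, ha⟩
  · rintro ⟨j, hj, e, he, ha⟩
    exact ⟨e, ⟨j, hj, he⟩, ha⟩

theorem card_vs_single {e : Sym2 V} (he : ¬ e.IsDiag) : (vs {e}).card = 2 := by
  refine le_antisymm ?_ (two_le_vs (E := {e}) (by simpa using he) Subset.rfl ⟨e, by simp⟩)
  have := card_vs_le ({e} : Finset (Sym2 V))
  simpa using this

theorem inter_single {e₁ e₂ : Sym2 V} (h1 : ¬ e₁.IsDiag) (h2 : ¬ e₂.IsDiag) (hne : e₁ ≠ e₂) :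
    (vs {e₁} ∩ vs {e₂}).card ≤ 1 := by
  have h3 : 3 ≤ (vs ({e₁} ∪ {e₂} : Finset (Sym2 V))).card :=
    two_edges h1 h2 hne (fun a ha => mem_vs.2 ⟨e₁, by simp, ha⟩)
      (fun a ha => mem_vs.2 ⟨e₂, by simp, ha⟩)
  rw [vs_union] at h3
  have h4 := card_union_add_card_inter (vs {e₁}) (vs {e₂})
  rw [card_vs_single h1, card_vs_single h2] at h4
  omega

/-- The removal property for large `p`. -/
theorem large (H : SimpleGraph V) (hE : (ef H).Nonempty) {ε : ℝ} (hε : 0 < ε) :
    ∃ δ L μ₀ n₀ a : ℝ, 0 < δ ∧ 0 < a ∧ ∀ (n : ℕ) (p : unitInterval), 0 < n → (0:ℝ) < p →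
      n₀ ≤ n → μ₀ ≤ (p:ℝ) * (n:ℝ) ^ 2 →
      (∀ B ⊆ ef H, 2 ≤ B.card →
        L * ((p:ℝ) * (n:ℝ) ^ 2) ≤ (n:ℝ) ^ (vs B).card * (p:ℝ) ^ B.card) →
      SimpleGraph.binomialRandom (Fin n) p {G₀ | RemProp H ε δ p G₀}ᶜ ≤
        ENNReal.ofReal (Real.exp (-(a * ((p:ℝ) * (n:ℝ) ^ 2)))) := by
  classical
  have hV : 0 < Fintype.card V := by
    obtain ⟨e, he⟩ := hE
    induction e with
    | _ a b => exact Fintype.card_pos_iff.2 ⟨a⟩
  have hVV : (0 : ℝ) < (Fintype.card V : ℝ) ^ Fintype.card V := by positivity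
  set en : Fin (ef H).card ≃ ef H := (ef H).equivFin.symm with hen
  set A : Fin (ef H).card → Finset (Sym2 V) := fun j => {(en j).1} with hA
  have hAE : ∀ j, A j ⊆ ef H := fun j => by
    rw [hA, singleton_subset_iff]
    exact (en j).2
  have hne : ∀ j, (A j).Nonempty := fun j => singleton_nonempty _
  have hcov : ∀ e ∈ ef H, ∃ j, e ∈ A j := fun e he => by
    refine ⟨en.symm ⟨e, he⟩, ?_⟩
    simp [hA]
  have hinj : ∀ i j, i ≠ j → (en i).1 ≠ (en j).1 := fun i j hij h =>
    hij (en.injective (Subtype.ext h))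
  have hdg : ∀ i, ¬ (en i).1.IsDiag := fun i => ef_diag (en i).2
  obtain ⟨δ, L, μ₀, n₀, a, hδ, ha, hcore⟩ := core (card_pos.2 hE) A (ef H) hAE hne hcov
    (fun i j hij => inter_single (hdg i) (hdg j) (hinj i j hij))
    (fun i j hij => by
      rw [hA, disjoint_singleton]
      exact hinj i j hij) hε (C₁ := 1) le_rfl
  refine ⟨δ / (Fintype.card V : ℝ) ^ Fintype.card V, L, μ₀, n₀, a, by positivity, ha, ?_⟩
  intro n p hn hp0 hn0 hμ hB
  haveI : Nonempty (Fin n) := ⟨⟨0, hn⟩⟩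
  have hcoren := hcore (Fin n) (p : ℝ) hp0 p.2.2 (by rwa [Fintype.card_fin])
    (by rwa [Fintype.card_fin]) (fun j => by
      rw [Fintype.card_fin, hA]
      simp only
      rw [card_vs_single (hdg j), card_singleton, pow_one, one_mul, mul_comm])
    (fun J hJ => by
      rw [Fintype.card_fin]
      have h1 : (J.biUnion A).card = J.card := by
        rw [card_biUnion fun i _ j _ hij => by
          rw [hA]
          exact disjoint_singleton.2 (hinj i j hij)]
        simp [hA]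
      have h2 := hB (J.biUnion A) (biUnion_subset.2 fun j _ => hAE j) (by rw [h1]; exact hJ)
      rw [vs_biUnion, h1] at h2
      have h3 : ∑ j ∈ J, (A j).card = J.card := by simp [hA]
      rw [h3]
      exact h2)
  refine (prob_bound p _ (BadE (ef H) ε δ (p : ℝ)) ?_).trans ?_
  · intro G hG
    refine bridge H hV ?_
    rw [Fintype.card_fin]
    exact hG
  · refine ENNReal.ofReal_le_ofReal (hcoren.trans ?_)
    rw [Fintype.card_fin]

end Pool.Agent.KS6_83.SR
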