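import Pool.Agent.KS6_83.SR.A

/-!
Sparse random removal lemma: small edge probabilities. If the removal property fails, there are many
edge-disjoint copies of the densest part.
-/

set_option autoImplicit false

open Finset Filter Topology

namespace Pool.Agent.KS6_83.SR

open Pool.Agent.N437.RL

variable {V : Type} [Fintype V] [DecidableEq V]

/-- If the removal property fails, there are many edge-disjoint copies of every part. -/
theorem many_copies (H : SimpleGraph V) {A : Finset (Sym2 V)} (hA : A ⊆ ef H)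
    (hne : A.Nonempty) {n : ℕ} [Nonempty (Fin n)] {ε δ p : ℝ} (G₀ : SimpleGraph (Fin n))
    (h : ¬ RemProp H ε δ p G₀) :
    ∃ F : Finset (vs A → Fin n), (∀ u ∈ F, Eb A (vs A) u ⊆ ef G₀ ∧
        (Eb A (vs A) u).card = A.card) ∧
      (∀ u ∈ F, ∀ u' ∈ F, u ≠ u' → Disjoint (Eb A (vs A) u) (Eb A (vs A) u')) ∧
      ε * p * (n : ℝ) ^ 2 < F.card * A.card := by
  classical
  obtain ⟨F, ⟨hF1, hF2⟩, hmax⟩ := exists_max_card (α := vs A → Fin n)
    (fun F => (∀ u ∈ F, Eb A (vs A) u ⊆ ef G₀ ∧ (Eb A (vs A) u).card = A.card) ∧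
      (∀ u ∈ F, ∀ u' ∈ F, u ≠ u' → Disjoint (Eb A (vs A) u) (Eb A (vs A) u')))
    ⟨fun u hu => absurd hu (notMem_empty u), fun u hu => absurd hu (notMem_empty u)⟩
  refine ⟨F, hF1, hF2, ?_⟩
  by_contra hcon
  push Not at hcon
  apply h
  intro G hG _
  refine ⟨F.biUnion fun u => Eb A (vs A) u, ?_, ?_⟩
  · refine le_trans ?_ hcon
    have h1 : (F.biUnion fun u => Eb A (vs A) u).card ≤ F.card * A.card :=
      card_biUnion_le_card_mul _ _ _ fun u hu => (hF1 u hu).2.le
    exact_mod_cast h1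
  · rintro ⟨f⟩
    have hu : Eb A (vs A) (res (vs A) f) = A.image (Sym2.map f) := Eb_res Subset.rfl f
    have hinj : Function.Injective (res (vs A) f) := res_inj f.injective
    have hedge : ∀ e ∈ A, Sym2.map f e ∈
        (G.deleteEdges ((F.biUnion fun u => Eb A (vs A) u : Finset (Sym2 (Fin n))) :
          Set (Sym2 (Fin n)))).edgeSet := by
      intro e he
      have he' := mem_ef.1 (hA he)
      induction e with
      | _ x y =>
        rw [Sym2.map_mk, SimpleGraph.mem_edgeSet]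
        exact f.toHom.map_adj he'
    have hsub : Eb A (vs A) (res (vs A) f) ⊆ ef G₀ := by
      rw [hu]
      intro e he
      obtain ⟨e', he', rfl⟩ := mem_image.1 he
      have h2 := hedge e' he'
      rw [SimpleGraph.edgeSet_deleteEdges] at h2
      exact mem_ef.2 (SimpleGraph.edgeSet_mono hG h2.1)
    have hdis : ∀ u ∈ F, Disjoint (Eb A (vs A) (res (vs A) f)) (Eb A (vs A) u) := by
      intro u huF
      rw [hu, disjoint_left]
      intro e he he2
      obtain ⟨e', he', rfl⟩ := mem_image.1 he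
      have h2 := hedge e' he'
      rw [SimpleGraph.edgeSet_deleteEdges] at h2
      exact h2.2 (mem_coe.2 (mem_biUnion.2 ⟨u, huF, he2⟩))
    have hcard : (Eb A (vs A) (res (vs A) f)).card = A.card := Eb_card Subset.rfl hinj
    have hnot : res (vs A) f ∉ F := by
      intro hmem
      have h2 := hdis _ hmem
      rw [disjoint_self_iff_empty] at h2
      rw [h2, card_empty] at hcard
      exact (card_pos.2 hne).ne hcard
    have h3 := hmax (insert (res (vs A) f) F) ⟨by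
      intro u hu'
      rcases mem_insert.1 hu' with rfl | hu'
      · exact ⟨hsub, hcard⟩
      · exact hF1 u hu', by
      intro u hu1 u' hu2 huu
      rcases mem_insert.1 hu1 with h1 | h1
      · rcases mem_insert.1 hu2 with h2 | h2
        · exact absurd (h1.trans h2.symm) huu
        · rw [h1]
          exact hdis u' h2
      · rcases mem_insert.1 hu2 with h2 | h2
        · rw [h2]
          exact (hdis u h1).symm
        · exact hF2 u h1 u' h2 huu⟩
    rw [card_insert_of_notMem hnot] at h3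
    omega

/-- The probability that the removal property fails. -/
theorem small_bound (H : SimpleGraph V) {A : Finset (Sym2 V)} (hA : A ⊆ ef H)
    (hne : A.Nonempty) {ε δ : ℝ} {n : ℕ} (hn : 0 < n) (p : unitInterval) (hε : 0 < ε) :
    ∃ t : ℕ, 1 ≤ t ∧ ε * p * (n : ℝ) ^ 2 / A.card < t ∧
      SimpleGraph.binomialRandom (Fin n) p {G₀ | RemProp H ε δ p G₀}ᶜ ≤
        ENNReal.ofReal (((n : ℝ) ^ (vs A).card * (p : ℝ) ^ A.card) ^ t / t.factorial) := by
  classical
  have : Nonempty (Fin n) := ⟨⟨0, hn⟩⟩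
  have hp0 : (0:ℝ) ≤ p := p.2.1
  have hp1 : (p:ℝ) ≤ 1 := p.2.2
  have hA0 : (0:ℝ) < A.card := by exact_mod_cast card_pos.2 hne
  have hx0 : 0 ≤ ε * p * (n : ℝ) ^ 2 / A.card := by positivity
  set t : ℕ := ⌊ε * p * (n : ℝ) ^ 2 / A.card⌋₊ + 1 with ht
  refine ⟨t, by omega, by rw [ht]; push_cast; exact Nat.lt_floor_add_one _, ?_⟩
  set I : Finset (Finset (vs A → Fin n)) := ((univ : Finset (vs A → Fin n)).powersetCard t).filter
    (fun F => (∀ u ∈ F, (Eb A (vs A) u).card = A.card) ∧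
      ∀ u ∈ F, ∀ u' ∈ F, u ≠ u' → Disjoint (Eb A (vs A) u) (Eb A (vs A) u')) with hI
  refine (prob_bound p _ (fun s => ∃ F ∈ I, (F.biUnion fun u => Eb A (vs A) u) ⊆ s) ?_).trans ?_
  · intro G hG
    obtain ⟨F, hF1, hF2, hF3⟩ := many_copies H hA hne G hG
    have hle : t ≤ F.card := by
      have h1 : ε * p * (n : ℝ) ^ 2 / A.card < F.card := by rwa [div_lt_iff₀ hA0]
      rw [ht]
      have := (Nat.floor_lt hx0).2 h1
      omega
    obtain ⟨F', hF', hcard⟩ := exists_subset_card_eq hle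
    refine ⟨F', ?_, biUnion_subset.2 fun u hu => (hF1 u (hF' hu)).1⟩
    rw [hI, mem_filter, mem_powersetCard]
    exact ⟨⟨subset_univ _, hcard⟩, fun u hu => (hF1 u (hF' hu)).2,
      fun u hu u' hu' huu => hF2 u (hF' hu) u' (hF' hu') huu⟩
  · refine ENNReal.ofReal_le_ofReal ?_
    refine (prE_union hp0 hp1 _ I (fun F => F.biUnion fun u => Eb A (vs A) u)
      (fun s _ hs => hs)).trans ?_
    have h1 : ∀ F ∈ I, (p:ℝ) ^ (F.biUnion fun u => Eb A (vs A) u).card =
        ∏ _u ∈ F, (p:ℝ) ^ A.card := by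
      intro F hF
      rw [hI, mem_filter] at hF
      rw [card_biUnion fun u hu u' hu' huu => hF.2.2 u hu u' hu' huu, prod_const,
        sum_congr rfl hF.2.1, sum_const, smul_eq_mul, mul_comm, pow_mul]
    rw [sum_congr rfl h1]
    have h2 : ∑ F ∈ I, ∏ _u ∈ F, (p:ℝ) ^ A.card ≤
        ∑ F ∈ (univ : Finset (vs A → Fin n)).powersetCard t, ∏ _u ∈ F, (p:ℝ) ^ A.card := by
      refine sum_le_sum_of_subset_of_nonneg (filter_subset _ _) fun F _ _ => ?_
      exact prod_nonneg fun _ _ => by positivity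
    refine h2.trans ((esum_le _ _ (fun _ => by positivity) t).trans ?_)
    rw [sum_const, card_univ, Fintype.card_fun, Fintype.card_fin, Fintype.card_coe, nsmul_eq_mul]
    push_cast
    exact le_rfl

/-- The removal property for small `p`. -/
theorem small (H : SimpleGraph V) {m : ℝ} (hm : 1 / 2 < m) {A : Finset (Sym2 V)} {S : Finset V}
    (hA : A ⊆ ef H) (hS : ∀ e ∈ A, ∀ a ∈ e, a ∈ S) (h3 : 3 ≤ S.card)
    (heq : (A.card : ℝ) - 1 = m * ((S.card : ℝ) - 2)) {ε : ℝ} (hε : 0 < ε) :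
    ∃ c a : ℝ, 0 < c ∧ 0 < a ∧ ∀ (δ : ℝ) (n : ℕ) (p : unitInterval), 0 < n →
      ((p : ℝ) ≤ c * (n : ℝ) ^ (-1 / m) →
        SimpleGraph.binomialRandom (Fin n) p {G₀ | RemProp H ε δ p G₀}ᶜ ≤
          ENNReal.ofReal (Real.exp (-(a * ((p:ℝ) * (n:ℝ) ^ 2))))) ∧
      ((p : ℝ) * (n:ℝ) ^ 2 ≤ (n:ℝ) ^ ((2 - 1 / m) / 4) →
        SimpleGraph.binomialRandom (Fin n) p {G₀ | RemProp H ε δ p G₀}ᶜ ≤
          ENNReal.ofReal ((n:ℝ) ^ (-((2 - 1 / m) / 2)))) := by
  classical
  have hm0 : 0 < m := by linarith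
  have h3' : (3:ℝ) ≤ S.card := by exact_mod_cast h3
  have hA2 : 2 ≤ A.card := by
    have h1 : 0 < (A.card : ℝ) - 1 := by rw [heq]; exact mul_pos hm0 (by linarith)
    have h2 : (1:ℝ) < A.card := by linarith
    have h4 : 1 < A.card := by exact_mod_cast h2
    omega
  have hne : A.Nonempty := card_pos.1 (by omega)
  have hA0 : (0:ℝ) < A.card := by exact_mod_cast card_pos.2 hne
  obtain ⟨v', hv'⟩ : ∃ v', S.card = v' + 2 := ⟨_, (Nat.sub_add_cancel (by omega)).symm⟩
  obtain ⟨e', he'⟩ : ∃ e', A.card = e' + 1 := ⟨_, (Nat.sub_add_cancel (by omega)).symm⟩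
  have he1 : 1 ≤ e' := by omega
  have hev : (e' : ℝ) = m * v' := by
    rw [hv', he'] at heq
    push_cast at heq
    linarith
  have hvs : (vs A).card ≤ v' + 2 := by
    rw [← hv']
    refine card_le_card fun a ha => ?_
    obtain ⟨e, he, hae⟩ := mem_vs.1 ha
    exact hS e he a hae
  set β : ℝ := 2 - 1 / m with hβ
  have hβ0 : 0 < β := by
    have : 1 / m < 2 := by
      rw [div_lt_iff₀ hm0]
      linarith
    rw [hβ]; linarith
  set c : ℝ := min 1 (ε / (8 * A.card)) with hc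
  have hc0 : 0 < c := lt_min one_pos (by positivity)
  have hc1 : c ≤ 1 := min_le_left _ _
  refine ⟨c, ε / A.card, hc0, by positivity, ?_⟩
  intro δ n p hn
  have hn' : (0:ℝ) < n := by exact_mod_cast hn
  have hn1 : (1:ℝ) ≤ n := by exact_mod_cast hn
  have hp0 : (0:ℝ) ≤ p := p.2.1
  obtain ⟨t, ht1, ht2, hb⟩ := small_bound H hA hne (δ := δ) hn p hε
  set N : ℝ := (n : ℝ) ^ (vs A).card * (p : ℝ) ^ A.card with hN
  have hN0 : 0 ≤ N := by positivity
  have hNle : N ≤ ((n:ℝ) ^ v' * (p:ℝ) ^ e') * ((p:ℝ) * (n:ℝ) ^ 2) := by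
    rw [hN, he']
    calc (n : ℝ) ^ (vs A).card * (p : ℝ) ^ (e' + 1) ≤ (n : ℝ) ^ (v' + 2) * (p : ℝ) ^ (e' + 1) :=
          mul_le_mul_of_nonneg_right (pow_le_pow_right₀ hn1 hvs) (by positivity)
      _ = _ := by ring
  constructor
  · intro hp
    refine hb.trans (ENNReal.ofReal_le_ofReal ?_)
    have h4 := as_le hm0 hc0.le hn' hp0 hp v' e' hev
    have h5 : c ^ e' ≤ c := by
      calc c ^ e' ≤ c ^ 1 := pow_le_pow_of_le_one hc0.le hc1 he1
        _ = c := pow_one c
    have h6 : N ≤ ε / (8 * A.card) * ((p:ℝ) * (n:ℝ) ^ 2) := by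
      refine hNle.trans (mul_le_mul_of_nonneg_right ?_ (by positivity))
      exact (h4.trans h5).trans (min_le_right _ _)
    have h7 : N * 8 ≤ t := by
      have h8 : N * 8 ≤ ε * p * (n : ℝ) ^ 2 / A.card := by
        calc N * 8 ≤ ε / (8 * A.card) * ((p:ℝ) * (n:ℝ) ^ 2) * 8 := by linarith
          _ = ε * p * (n : ℝ) ^ 2 / A.card := by field_simp
      linarith
    refine (esum_exp hN0 h7).trans (Real.exp_le_exp.2 (neg_le_neg (le_trans ?_ ht2.le)))
    exact le_of_eq (by ring)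
  · intro hlarge
    refine hb.trans (ENNReal.ofReal_le_ofReal ?_)
    have hple : (p:ℝ) ≤ (n:ℝ) ^ (-(3 * β / 4)) * (n:ℝ) ^ (-1 / m) := by
      rw [← Real.rpow_add hn']
      have h4 : -(3 * β / 4) + -1 / m = β / 4 - (2:ℕ) := by
        rw [hβ]; push_cast; ring
      rw [h4, Real.rpow_sub hn', Real.rpow_natCast, le_div_iff₀ (by positivity)]
      exact hlarge
    have h4 := as_le hm0 (by positivity : 0 ≤ (n:ℝ) ^ (-(3 * β / 4))) hn' hp0 hple v' e' hev
    have hy1 : (n:ℝ) ^ (-(3 * β / 4)) ≤ 1 :=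
      Real.rpow_le_one_of_one_le_of_nonpos hn1 (by linarith)
    have h5 : ((n:ℝ) ^ (-(3 * β / 4))) ^ e' ≤ (n:ℝ) ^ (-(3 * β / 4)) := by
      calc ((n:ℝ) ^ (-(3 * β / 4))) ^ e' ≤ ((n:ℝ) ^ (-(3 * β / 4))) ^ 1 :=
            pow_le_pow_of_le_one (by positivity) hy1 he1
        _ = _ := pow_one _
    have h6 : N ≤ (n:ℝ) ^ (-(β / 2)) := by
      calc N ≤ ((n:ℝ) ^ v' * (p:ℝ) ^ e') * ((p:ℝ) * (n:ℝ) ^ 2) := hNle
        _ ≤ (n:ℝ) ^ (-(3 * β / 4)) * (n:ℝ) ^ (β / 4) :=
            mul_le_mul (h4.trans h5) hlarge (by positivity) (by positivity)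
        _ = (n:ℝ) ^ (-(β / 2)) := by
            rw [← Real.rpow_add hn']
            congr 1
            ring
    have h7 : (n:ℝ) ^ (-(β / 2)) ≤ 1 :=
      Real.rpow_le_one_of_one_le_of_nonpos hn1 (by linarith)
    calc N ^ t / t.factorial ≤ N ^ t := div_le_self (by positivity)
          (by exact_mod_cast t.factorial_pos)
      _ ≤ N ^ 1 := pow_le_pow_of_le_one hN0 (h6.trans h7) ht1
      _ = N := pow_one N
      _ ≤ _ := h6

end Pool.Agent.KS6_83.SR
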