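import Pool.Agent.KS6_83.SR.B

/-!
Sparse random removal lemma for matchings (plus isolated vertices), few edges.
-/

set_option autoImplicit false

open Finset Filter Topology

namespace Pool.Agent.KS6_83.SR

open Pool.Agent.N437.RL

variable {V : Type} [Fintype V] [DecidableEq V]

/-- distinct members of the set of edges are disjoint -/
def Mat {Y : Type} (E : Finset (Sym2 Y)) : Prop :=
  ∀ e ∈ E, ∀ e' ∈ E, ∀ a, a ∈ e → a ∈ e' → e = e'

/-- the number of labelled copies of a matching in a matching -/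
theorem matching_count {Y : Type} [Fintype Y] [DecidableEq Y] {E : Finset (Sym2 V)}
    {EG : Finset (Sym2 Y)} (hE : Mat E) (hEG : Mat EG) (dE : ∀ e ∈ E, ¬ e.IsDiag)
    (dG : ∀ e ∈ EG, ¬ e.IsDiag) :
    (Fintype.card Y - Fintype.card V) ^ (Fintype.card V - (vs E).card) *
      EG.card.descFactorial E.card ≤ nh E EG := by
  classical
  have hsp : ∀ (Z : Type) (e : Sym2 Z), ∃ x y, e = s(x, y) := fun Z e => by
    induction e with
    | _ x y => exact ⟨x, y, rfl⟩
  choose hx hy hxy using hsp V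
  choose fx fy fxy using hsp Y
  have hxe : ∀ e : Sym2 V, hx e ∈ e := fun e => by
    have h := Sym2.mem_mk_left (hx e) (hy e)
    rwa [← hxy e] at h
  have hye : ∀ e : Sym2 V, hy e ∈ e := fun e => by
    have h := Sym2.mem_mk_right (hx e) (hy e)
    rwa [← hxy e] at h
  have fxe : ∀ e : Sym2 Y, fx e ∈ e := fun e => by
    have h := Sym2.mem_mk_left (fx e) (fy e)
    rwa [← fxy e] at h
  have fye : ∀ e : Sym2 Y, fy e ∈ e := fun e => by
    have h := Sym2.mem_mk_right (fx e) (fy e)
    rwa [← fxy e] at h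
  have hed : ∀ a : vs E, ∃ e : E, a.1 ∈ e.1 := fun a => by
    obtain ⟨e, he, ha⟩ := mem_vs.1 a.2
    exact ⟨⟨e, he⟩, ha⟩
  choose ed hed using hed
  -- the map attached to an injection of the edges
  set u : (E ↪ EG) → (vs E → Y) := fun g a =>
    if a.1 = hx (ed a).1 then fx (g (ed a)).1 else fy (g (ed a)).1 with hu
  have hmem : ∀ (g : E ↪ EG) (a : vs E), u g a ∈ (g (ed a)).1 := by
    intro g a
    rw [hu]
    simp only
    split_ifs
    · exact fxe _
    · exact fye _
  have hedeq : ∀ (a : vs E) (e : E), a.1 ∈ e.1 → ed a = e := fun a e ha =>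
    Subtype.ext (hE _ (ed a).2 _ e.2 a.1 (hed a) ha)
  have hxm : ∀ e : E, hx e.1 ∈ vs E := fun e => mem_vs.2 ⟨e.1, e.2, hxe _⟩
  have hym : ∀ e : E, hy e.1 ∈ vs E := fun e => mem_vs.2 ⟨e.1, e.2, hye _⟩
  have hux : ∀ (g : E ↪ EG) (e : E), u g ⟨hx e.1, hxm e⟩ = fx (g e).1 := by
    intro g e
    have h1 : ed ⟨hx e.1, hxm e⟩ = e := hedeq _ e (hxe _)
    rw [hu]
    simp only
    rw [h1, if_pos rfl]
  have huy : ∀ (g : E ↪ EG) (e : E), u g ⟨hy e.1, hym e⟩ = fy (g e).1 := by
    intro g e
    have h1 : ed ⟨hy e.1, hym e⟩ = e := hedeq _ e (hye _)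
    rw [hu]
    simp only
    rw [h1, if_neg]
    intro h
    have h2 := dE e.1 e.2
    rw [hxy e.1, Sym2.mk_isDiag_iff] at h2
    exact h2 h.symm
  have hpair : ∀ (g : E ↪ EG) (e : E), s(u g ⟨hx e.1, hxm e⟩, u g ⟨hy e.1, hym e⟩) = (g e).1 := by
    intro g e
    rw [hux, huy, ← fxy]
  have huinj : Function.Injective u := by
    intro g g' hgg
    ext1 e
    refine Subtype.ext ?_
    rw [← hpair g e, ← hpair g' e, hgg]
  have hinj : ∀ g : E ↪ EG, Function.Injective (u g) := by
    intro g a b hab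
    by_cases hee : ed a = ed b
    · have hb : b.1 ∈ (ed a).1 := by rw [hee]; exact hed b
      have ha := hed a
      have hne : u g ⟨hx (ed a).1, hxm _⟩ ≠ u g ⟨hy (ed a).1, hym _⟩ := by
        rw [hux, huy]
        intro h
        have h2 := dG _ (g (ed a)).2
        rw [fxy (g (ed a)).1, Sym2.mk_isDiag_iff] at h2
        exact h2 h
      have key : ∀ c : vs E, c.1 ∈ (ed a).1 → c = ⟨hx (ed a).1, hxm _⟩ ∨ c = ⟨hy (ed a).1, hym _⟩ := by
        intro c hc
        rw [hxy (ed a).1, Sym2.mem_iff] at hc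
        rcases hc with hc | hc
        · exact Or.inl (Subtype.ext hc)
        · exact Or.inr (Subtype.ext hc)
      rcases key a ha with h1 | h1 <;> rcases key b hb with h2 | h2
      · exact h1.trans h2.symm
      · rw [h1, h2] at hab
        exact absurd hab hne
      · rw [h1, h2] at hab
        exact absurd hab.symm hne
      · exact h1.trans h2.symm
    · exfalso
      have h1 := hmem g a
      have h2 := hmem g b
      rw [← hab] at h2
      have h3 := hEG _ (g (ed a)).2 _ (g (ed b)).2 _ h1 h2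
      exact hee (g.injective (Subtype.ext h3))
  have h := nh_ge (E := E) (EG := EG) (vs E) (univ.image u) (by
    intro v hv
    obtain ⟨g, _, rfl⟩ := mem_image.1 hv
    exact hinj g) (by
    intro φ hφ e he
    obtain ⟨g, _, hg⟩ := mem_image.1 hφ
    have e1 : φ (hx e) = u g ⟨hx e, hxm ⟨e, he⟩⟩ := by rw [hg]; rfl
    have e2 : φ (hy e) = u g ⟨hy e, hym ⟨e, he⟩⟩ := by rw [hg]; rfl
    have h4 := hpair g ⟨e, he⟩
    have h5 : Sym2.map φ e = (g ⟨e, he⟩).1 := by
      have h6 : Sym2.map φ e = Sym2.map φ s(hx e, hy e) := congrArg _ (hxy e)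
      rw [h6, Sym2.map_mk, e1, e2, h4]
    rw [h5]
    exact (g ⟨e, he⟩).2)
  rw [card_image_of_injective _ huinj, card_univ, Fintype.card_embedding_eq, Fintype.card_coe,
    Fintype.card_coe] at h
  exact h

/-- The removal property holds for matchings in matchings. -/
theorem matching_rem (H : SimpleGraph V) (hE : (ef H).Nonempty) (hM : Mat (ef H)) {ε : ℝ}
    (hε : 0 < ε) : ∃ δ : ℝ, 0 < δ ∧ ∀ n : ℕ, 2 * Fintype.card V ≤ n → 0 < n → ∀ p : ℝ, 0 ≤ p →
      ∀ G₀ : SimpleGraph (Fin n), Mat (ef G₀) → RemProp H ε δ p G₀ := by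
  classical
  have hV : 0 < Fintype.card V := by
    obtain ⟨e, he⟩ := hE
    induction e with
    | _ a b => exact Fintype.card_pos_iff.2 ⟨a⟩
  have hVV : (0 : ℝ) < (Fintype.card V : ℝ) ^ Fintype.card V := by positivity
  set s := (ef H).card with hs
  have hs1 : 1 ≤ s := card_pos.2 hE
  have hs0 : (0:ℝ) < s := by exact_mod_cast hs1
  refine ⟨(ε / s) ^ s / ((Fintype.card V : ℝ) ^ Fintype.card V * 2 ^ Fintype.card V),
    by positivity, ?_⟩
  intro n hn hn0 p hp G₀ hG₀ G hG hcount
  have hn' : (0 : ℝ) < n := by exact_mod_cast hn0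
  have hn1 : (1 : ℝ) ≤ n := by exact_mod_cast hn0
  have hGM : Mat (ef G) := fun e he e' he' a ha ha' =>
    hG₀ e (mem_ef.2 (SimpleGraph.edgeSet_mono hG (mem_ef.1 he))) e'
      (mem_ef.2 (SimpleGraph.edgeSet_mono hG (mem_ef.1 he'))) a ha ha'
  have hlow := matching_count hM hGM (fun e he => ef_diag he) (fun e he => ef_diag he)
  rw [Fintype.card_fin] at hlow
  have hnh := nh_le H G
  by_cases hMs : (ef G).card < s
  · refine ⟨∅, by rw [card_empty, Nat.cast_zero]; positivity, ?_⟩
    rw [coe_empty, SimpleGraph.deleteEdges_empty]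
    rintro ⟨f⟩
    have h1 : (ef H).card ≤ (ef G).card := by
      refine card_le_card_of_injOn (Sym2.map f) ?_ (Sym2.map.injective f.injective).injOn
      intro e he
      rw [mem_coe] at he ⊢
      induction e with
      | _ x y =>
        rw [Sym2.map_mk, mem_ef]
        exact f.toHom.map_adj (mem_ef.1 he)
    omega
  · push Not at hMs
    set M := (ef G).card with hMdef
    have hM0 : (0:ℝ) ≤ M := Nat.cast_nonneg _
    have h1 : ((((n - Fintype.card V) ^ (Fintype.card V - (vs (ef H)).card) : ℕ) : ℝ) *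
        (M.descFactorial s : ℝ)) ≤ (Fintype.card V : ℝ) ^ (Fintype.card V) * G.copyCount H := by
      exact_mod_cast hlow.trans hnh
    have h2 := half_pow (k := Fintype.card V - (vs (ef H)).card) hn (Nat.sub_le _ _)
    have hvs := card_vs_le (ef H)
    have hvsV : (vs (ef H)).card ≤ Fintype.card V := card_le_univ _
    have h3 : (M.descFactorial s : ℝ) ≤ ((ε / s) * (p * (n:ℝ) ^ 2)) ^ s := by
      have h4 : (n : ℝ) ^ (Fintype.card V - (vs (ef H)).card) * (M.descFactorial s : ℝ) ≤
          (n : ℝ) ^ (Fintype.card V - (vs (ef H)).card) *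
            ((ε / s) * (p * (n:ℝ) ^ 2)) ^ s := by
        calc (n : ℝ) ^ (Fintype.card V - (vs (ef H)).card) * (M.descFactorial s : ℝ) ≤
            (2 ^ Fintype.card V *
              (((n - Fintype.card V) ^ (Fintype.card V - (vs (ef H)).card) : ℕ) : ℝ)) *
              (M.descFactorial s : ℝ) := mul_le_mul_of_nonneg_right h2 (Nat.cast_nonneg _)
          _ = 2 ^ Fintype.card V *
              ((((n - Fintype.card V) ^ (Fintype.card V - (vs (ef H)).card) : ℕ) : ℝ) *
              (M.descFactorial s : ℝ)) := by ring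
          _ ≤ 2 ^ Fintype.card V * ((Fintype.card V : ℝ) ^ (Fintype.card V) * G.copyCount H) :=
              mul_le_mul_of_nonneg_left h1 (by positivity)
          _ ≤ 2 ^ Fintype.card V * ((Fintype.card V : ℝ) ^ (Fintype.card V) *
              ((ε / s) ^ s / ((Fintype.card V : ℝ) ^ Fintype.card V * 2 ^ Fintype.card V) *
                p ^ H.edgeSet.ncard * (n : ℝ) ^ Fintype.card V)) := by gcongr
          _ = (ε / s) ^ s * p ^ s * (n : ℝ) ^ Fintype.card V := by
              rw [← card_ef, ← hs]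
              field_simp
          _ ≤ (ε / s) ^ s * p ^ s * ((n : ℝ) ^ (Fintype.card V - (vs (ef H)).card) *
                (n : ℝ) ^ (2 * s)) := by
              refine mul_le_mul_of_nonneg_left ?_ (by positivity)
              rw [← pow_add]
              exact pow_le_pow_right₀ hn1 (by omega)
          _ = _ := by
              rw [mul_pow, mul_pow, ← pow_mul]
              ring
      exact le_of_mul_le_mul_left h4 (by positivity)
    have h5 : ((M:ℝ) / s) ^ s ≤ (M.descFactorial s : ℝ) := by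
      have h6 : ((M + 1 - s) ^ s : ℕ) ≤ M.descFactorial s := Nat.pow_sub_le_descFactorial M s
      have h7 : ((M:ℝ) / s) ≤ ((M + 1 - s : ℕ) : ℝ) := by
        rw [Nat.cast_sub (by omega), div_le_iff₀ hs0]
        push_cast
        have h8 : (s:ℝ) ≤ M := by exact_mod_cast hMs
        have h9 : (1:ℝ) ≤ s := by exact_mod_cast hs1
        nlinarith
      calc ((M:ℝ) / s) ^ s ≤ (((M + 1 - s : ℕ) : ℝ)) ^ s :=
            pow_le_pow_left₀ (by positivity) h7 s
        _ ≤ (M.descFactorial s : ℝ) := by exact_mod_cast h6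
    have h6 : (M:ℝ) / s ≤ (ε / s) * (p * (n:ℝ) ^ 2) :=
      le_of_pow_le_pow_left₀ (by omega) (by positivity) (h5.trans h3)
    have hfin : ((ef G).card : ℝ) ≤ ε * p * (n : ℝ) ^ 2 := by
      rw [div_le_iff₀ hs0] at h6
      calc (M:ℝ) ≤ ε / s * (p * (n:ℝ) ^ 2) * s := h6
        _ = _ := by field_simp
    refine ⟨ef G, hfin, ?_⟩
    have h7 : G.deleteEdges (ef G : Set (Sym2 (Fin n))) = ⊥ := by
      rw [coe_ef]
      ext x y
      rw [SimpleGraph.deleteEdges_adj, SimpleGraph.mem_edgeSet, SimpleGraph.bot_adj]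
      tauto
    rw [h7]
    refine SimpleGraph.free_bot ?_
    rintro rfl
    obtain ⟨e, he⟩ := hE
    rw [mem_ef, SimpleGraph.edgeSet_bot] at he
    exact he

/-- The random graph is a matching if it has few edges. -/
theorem prob_not_matching (n : ℕ) (p : unitInterval) :
    SimpleGraph.binomialRandom (Fin n) p {G₀ : SimpleGraph (Fin n) | Mat (ef G₀)}ᶜ ≤
      ENNReal.ofReal ((n : ℝ) ^ 3 * (p : ℝ) ^ 2) := by
  classical
  have hp0 : (0:ℝ) ≤ p := p.2.1
  have hp1 : (p:ℝ) ≤ 1 := p.2.2
  set I : Finset (Fin n × Fin n × Fin n) := univ.filter (fun x => x.2.1 ≠ x.2.2) with hI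
  refine (prob_bound p _ (fun s => ∃ x ∈ I, ({s(x.1, x.2.1), s(x.1, x.2.2)} :
    Finset (Sym2 (Fin n))) ⊆ s) ?_).trans ?_
  · intro G hG
    have hG' : ¬ Mat (ef G) := hG
    unfold Mat at hG'
    push Not at hG'
    obtain ⟨e, he, e', he', a, ha, ha', hne⟩ := hG'
    obtain ⟨y, rfl⟩ := Sym2.mem_iff_exists.1 ha
    obtain ⟨z, rfl⟩ := Sym2.mem_iff_exists.1 ha'
    refine ⟨(a, y, z), ?_, ?_⟩
    · rw [hI, mem_filter]
      refine ⟨mem_univ _, fun h => hne ?_⟩
      simp only at h
      rw [h]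
    · intro f hf
      simp only [mem_insert, mem_singleton] at hf
      rcases hf with rfl | rfl
      · exact he
      · exact he'
  · refine ENNReal.ofReal_le_ofReal ?_
    refine (prE_union hp0 hp1 _ I (fun x => ({s(x.1, x.2.1), s(x.1, x.2.2)} :
      Finset (Sym2 (Fin n)))) (fun s _ hs => hs)).trans ?_
    have h1 : ∀ x ∈ I, (p:ℝ) ^ ({s(x.1, x.2.1), s(x.1, x.2.2)} : Finset (Sym2 (Fin n))).card =
        (p:ℝ) ^ 2 := by
      intro x hx
      rw [hI, mem_filter] at hx
      rw [card_pair]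
      intro h
      rw [Sym2.eq_iff] at h
      rcases h with ⟨_, h⟩ | ⟨h, h'⟩
      · exact hx.2 h
      · exact hx.2 (h'.trans h)
    rw [sum_congr rfl h1, sum_const, nsmul_eq_mul]
    refine mul_le_mul_of_nonneg_right ?_ (by positivity)
    have h2 : I.card ≤ n ^ 3 := by
      refine (card_le_univ _).trans (le_of_eq ?_)
      simp only [Fintype.card_prod, Fintype.card_fin]
      ring
    exact_mod_cast h2

end Pool.Agent.KS6_83.SR
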