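import Pool.Agent.KS6_83.SR.C

/-!
Sparse random removal lemma: all edge probabilities together.
-/

set_option autoImplicit false

open Finset Filter Topology

namespace Pool.Agent.KS6_83.SR

open Pool.Agent.N437.RL

variable {V : Type} [Fintype V] [DecidableEq V]

omit [DecidableEq V] in
theorem rem_mono {n : ℕ} {H : SimpleGraph V} {ε δ δ' p : ℝ} (hp : 0 ≤ p) (h : δ ≤ δ')
    {G₀ : SimpleGraph (Fin n)} (hG : RemProp H ε δ' p G₀) : RemProp H ε δ p G₀ := by
  intro G hle hc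
  refine hG G hle (hc.trans ?_)
  gcongr

theorem compl_eq {n : ℕ} (p : unitInterval) (P : Set (SimpleGraph (Fin n))) :
    SimpleGraph.binomialRandom (Fin n) p Pᶜ = 1 - SimpleGraph.binomialRandom (Fin n) p P := by
  have := msc (n := n)
  exact MeasureTheory.prob_compl_eq_one_sub (Set.toFinite P).measurableSet

theorem tendsto_compl {P : ∀ n : ℕ, Set (SimpleGraph (Fin n))} {p : ℕ → unitInterval}
    (h : Tendsto (fun n => SimpleGraph.binomialRandom (Fin n) (p n) (P n)) atTop (𝓝 1)) :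
    Tendsto (fun n => SimpleGraph.binomialRandom (Fin n) (p n) (P n)ᶜ) atTop (𝓝 0) := by
  have h1 := ENNReal.Tendsto.sub (tendsto_const_nhds (x := (1 : ENNReal)) (f := atTop)) h
    (Or.inl ENNReal.one_ne_top)
  rw [tsub_self] at h1
  exact h1.congr fun n => (compl_eq (p n) (P n)).symm

theorem tendsto_of_compl {P : ∀ n : ℕ, Set (SimpleGraph (Fin n))} {p : ℕ → unitInterval}
    (h : Tendsto (fun n => SimpleGraph.binomialRandom (Fin n) (p n) (P n)ᶜ) atTop (𝓝 0)) :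
    Tendsto (fun n => SimpleGraph.binomialRandom (Fin n) (p n) (P n)) atTop (𝓝 1) := by
  have h1 := ENNReal.Tendsto.sub (tendsto_const_nhds (x := (1 : ENNReal)) (f := atTop)) h
    (Or.inl ENNReal.one_ne_top)
  rw [tsub_zero] at h1
  refine h1.congr fun n => ?_
  have h2 := compl_eq (p n) (P n)ᶜ
  rw [compl_compl] at h2
  exact h2.symm

omit [DecidableEq V] in
theorem fail_mono {n : ℕ} {H : SimpleGraph V} {ε δ δ' : ℝ} (p : unitInterval) (h : δ ≤ δ') :
    SimpleGraph.binomialRandom (Fin n) p {G₀ | RemProp H ε δ p G₀}ᶜ ≤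
      SimpleGraph.binomialRandom (Fin n) p {G₀ | RemProp H ε δ' p G₀}ᶜ := by
  refine MeasureTheory.measure_mono (Set.compl_subset_compl.2 fun G₀ hG => ?_)
  exact rem_mono p.2.1 h hG

/-- a densest part -/
theorem exists_dens (H : SimpleGraph V) (h2 : 2 ≤ (ef H).card) :
    ∃ (m : ℝ) (A : Finset (Sym2 V)) (S : Finset V), A ⊆ ef H ∧ (∀ e ∈ A, ∀ a ∈ e, a ∈ S) ∧
      3 ≤ S.card ∧ (A.card : ℝ) - 1 = m * ((S.card : ℝ) - 2) ∧ 1 / 2 ≤ m ∧
      ∀ A' ⊆ ef H, ∀ S' : Finset V, (∀ e ∈ A', ∀ a ∈ e, a ∈ S') → 3 ≤ S'.card →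
        ((A'.card : ℝ) - 1) / ((S'.card : ℝ) - 2) ≤ m := by
  classical
  obtain ⟨e₁, he₁, e₂, he₂, hne⟩ := one_lt_card.1 h2
  have hsub : ({e₁, e₂} : Finset (Sym2 V)) ⊆ ef H := by
    intro e he
    rcases mem_insert.1 he with rfl | he
    · exact he₁
    · rw [mem_singleton.1 he]; exact he₂
  have hc2 : ({e₁, e₂} : Finset (Sym2 V)).card = 2 := card_pair hne
  have h3 : 3 ≤ (vs ({e₁, e₂} : Finset (Sym2 V))).card :=
    two_edges (ef_diag he₁) (ef_diag he₂) hne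
      (fun a ha => mem_vs.2 ⟨e₁, mem_insert_self _ _, ha⟩)
      (fun a ha => mem_vs.2 ⟨e₂, mem_insert_of_mem (mem_singleton_self _), ha⟩)
  set I : Finset (Finset (Sym2 V) × Finset V) := univ.filter (fun x => x.1 ⊆ ef H ∧
    (∀ e ∈ x.1, ∀ a ∈ e, a ∈ x.2) ∧ 3 ≤ x.2.card) with hI
  have hmem : (({e₁, e₂} : Finset (Sym2 V)), vs ({e₁, e₂} : Finset (Sym2 V))) ∈ I := by
    rw [hI, mem_filter]
    exact ⟨mem_univ _, hsub, fun e he a ha => mem_vs.2 ⟨e, he, ha⟩, h3⟩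
  obtain ⟨⟨A, S⟩, hAS, hmax⟩ := exists_max_image I
    (fun x => ((x.1.card : ℝ) - 1) / ((x.2.card : ℝ) - 2)) ⟨_, hmem⟩
  rw [hI, mem_filter] at hAS
  obtain ⟨-, hA, hS, hS3⟩ := hAS
  simp only at hA hS hS3
  have hS3' : (3:ℝ) ≤ S.card := by exact_mod_cast hS3
  refine ⟨((A.card : ℝ) - 1) / ((S.card : ℝ) - 2), A, S, hA, hS, hS3, ?_, ?_, ?_⟩
  · rw [div_mul_cancel₀]
    linarith
  · have h4 : (vs ({e₁, e₂} : Finset (Sym2 V))).card ≤ 4 := by
      have := card_vs_le ({e₁, e₂} : Finset (Sym2 V))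
      rw [hc2] at this
      exact this
    refine le_trans ?_ (hmax _ hmem)
    simp only
    rw [hc2]
    have h3' : (3 : ℝ) ≤ (vs ({e₁, e₂} : Finset (Sym2 V))).card := by exact_mod_cast h3
    have h4' : ((vs ({e₁, e₂} : Finset (Sym2 V))).card : ℝ) ≤ 4 := by exact_mod_cast h4
    rw [div_le_div_iff₀ (by norm_num) (by linarith)]
    push_cast
    linarith
  · intro A' hA' S' hS' hS3'
    refine hmax (A', S') ?_
    rw [hI, mem_filter]
    exact ⟨mem_univ _, hA', hS', hS3'⟩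

theorem dens_of {H : SimpleGraph V} {m : ℝ}
    (hm : ∀ A' ⊆ ef H, ∀ S' : Finset V, (∀ e ∈ A', ∀ a ∈ e, a ∈ S') → 3 ≤ S'.card →
        ((A'.card : ℝ) - 1) / ((S'.card : ℝ) - 2) ≤ m) : Dens (ef H) m := by
  intro A hA S hS hS2
  rcases Nat.lt_or_ge S.card 3 with h3 | h3
  · have hS' : S.card = 2 := by omega
    have hA1 : A.card ≤ 1 := by
      by_contra hcon
      push Not at hcon
      obtain ⟨e₁, he₁, e₂, he₂, hne⟩ := one_lt_card.1 hcon
      have := two_edges (ef_diag (hA he₁)) (ef_diag (hA he₂)) hne (hS e₁ he₁) (hS e₂ he₂)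
      omega
    have hA1' : (A.card : ℝ) ≤ 1 := by exact_mod_cast hA1
    rw [hS']
    push_cast
    linarith
  · have h4 := hm A hA S hS h3
    have h3' : (3 : ℝ) ≤ S.card := by exact_mod_cast h3
    rw [div_le_iff₀ (by linarith)] at h4
    exact h4

theorem three_le_vs {H : SimpleGraph V} {B : Finset (Sym2 V)} (hB : B ⊆ ef H)
    (h2 : 2 ≤ B.card) : 3 ≤ (vs B).card := by
  obtain ⟨e₁, he₁, e₂, he₂, hne⟩ := one_lt_card.1 h2
  exact two_edges (ef_diag (hB he₁)) (ef_diag (hB he₂)) hne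
    (fun a ha => mem_vs.2 ⟨e₁, he₁, ha⟩) (fun a ha => mem_vs.2 ⟨e₂, he₂, ha⟩)

/-- The removal property in the window, with the probability. -/
theorem window (H : SimpleGraph V) (hE : (ef H).Nonempty) {m : ℝ} (hm : 1 / 2 < m)
    (hd : Dens (ef H) m) {ε c C : ℝ} (hε : 0 < ε) (hc : 0 < c) (hC : 0 < C) :
    ∃ δ a : ℝ, 0 < δ ∧ 0 < a ∧ ∀ᶠ n : ℕ in atTop, ∀ p : unitInterval,
      c * (n : ℝ) ^ (-1 / m) ≤ (p : ℝ) → (p : ℝ) ≤ C * (n : ℝ) ^ (-1 / m) →
      SimpleGraph.binomialRandom (Fin n) p {G₀ | RemProp H ε δ p G₀}ᶜ ≤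
        ENNReal.ofReal (Real.exp (-(a * ((p:ℝ) * (n:ℝ) ^ 2)))) := by
  classical
  have hm0 : 0 < m := by linarith
  obtain ⟨k, A, hk, hzero, hcov, hint, hdis, hJ⟩ := blobs hd (fun e he => ef_diag he) hE
  have hV : 0 < Fintype.card V := by
    obtain ⟨e, he⟩ := hE
    induction e with
    | _ a b => exact Fintype.card_pos_iff.2 ⟨a⟩
  have hAE : ∀ j, A j ⊆ ef H := fun j => (hzero j).1
  have hne : ∀ j, (A j).Nonempty := fun j => (hzero j).2.1
  have hAd : ∀ j, ∀ e ∈ A j, ¬ e.IsDiag := fun j e he => ef_diag (hAE j he)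
  obtain ⟨C₁, hC₁⟩ : ∃ C₁ : ℝ, C₁ = (max 1 C) ^ (ef H).card := ⟨_, rfl⟩
  have hC₁1 : 1 ≤ C₁ := by rw [hC₁]; exact one_le_pow₀ (le_max_left _ _)
  obtain ⟨δ, L, μ₀, n₀, a, hδ, ha, hcore⟩ := core hk A (ef H) hAE hne hcov hint hdis hε hC₁1
  have hVV : (0 : ℝ) < (Fintype.card V : ℝ) ^ Fintype.card V := by positivity
  refine ⟨δ / (Fintype.card V : ℝ) ^ Fintype.card V, a, by positivity, ha, ?_⟩
  have hcast : Tendsto (fun n : ℕ => (n : ℝ)) atTop atTop := tendsto_natCast_atTop_atTop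
  have hexp : 0 < 2 - 1 / m := by
    have : 1 / m < 2 := by
      rw [div_lt_iff₀ hm0]
      linarith
    linarith
  have hμlim : Tendsto (fun n : ℕ => c * (n : ℝ) ^ (2 - 1 / m)) atTop atTop :=
    ((tendsto_rpow_atTop hexp).comp hcast).const_mul_atTop hc
  have hH2 : ∀ᶠ n : ℕ in atTop, ∀ J : Finset (Fin k), 2 ≤ J.card → ∀ p : ℝ,
      c * (n : ℝ) ^ (-1 / m) ≤ p → L * (p * (n : ℝ) ^ 2) ≤
        (n : ℝ) ^ (J.biUnion fun j => vs (A j)).card * p ^ (∑ j ∈ J, (A j).card) := by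
    rw [eventually_all]
    intro J
    by_cases hJ2 : 2 ≤ J.card
    · have hJe := hJ J hJ2
      obtain ⟨j₀, hj₀⟩ : J.Nonempty := card_pos.1 (by omega)
      have hb2 : 2 ≤ (J.biUnion fun j => vs (A j)).card :=
        (two_le_vs (hAd j₀) Subset.rfl (hne j₀)).trans
          (card_le_card (subset_biUnion_of_mem (fun j => vs (A j)) hj₀))
      have he1 : 1 ≤ ∑ j ∈ J, (A j).card :=
        (card_pos.2 (hne j₀)).trans_le (single_le_sum (f := fun j => (A j).card)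
          (fun _ _ => Nat.zero_le _) hj₀)
      obtain ⟨b', hb'⟩ : ∃ b', (J.biUnion fun j => vs (A j)).card = b' + 2 :=
        ⟨_, (Nat.sub_add_cancel hb2).symm⟩
      obtain ⟨e', he'⟩ : ∃ e', ∑ j ∈ J, (A j).card = e' + 1 :=
        ⟨_, (Nat.sub_add_cancel he1).symm⟩
      rw [hb', he'] at hJe ⊢
      have hβ : 0 < (b' : ℝ) - e' / m := by
        push_cast at hJe
        have h1 : (e' : ℝ) < m * b' := by linarith
        have h2 : (e' : ℝ) / m < b' := by
          rw [div_lt_iff₀ hm0]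
          linarith
        linarith
      have hlim : Tendsto (fun n : ℕ => c ^ e' * (n : ℝ) ^ ((b' : ℝ) - e' / m)) atTop atTop :=
        ((tendsto_rpow_atTop hβ).comp hcast).const_mul_atTop (by positivity)
      filter_upwards [eventually_gt_atTop 0, hlim.eventually_ge_atTop L] with n h2 h3 _ p h1
      have hn : (0 : ℝ) < n := by exact_mod_cast h2
      have h4 := h3.trans (as_ge hm0 hc hn h1 b' e')
      have hp0 : (0 : ℝ) ≤ p := le_trans (by positivity) h1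
      calc L * (p * (n : ℝ) ^ 2) ≤
          ((n : ℝ) ^ b' * p ^ e') * (p * (n : ℝ) ^ 2) :=
            mul_le_mul_of_nonneg_right h4 (by positivity)
        _ = _ := by ring
    · exact Eventually.of_forall fun n h => absurd h hJ2
  filter_upwards [eventually_gt_atTop 0, hH2, hμlim.eventually_ge_atTop μ₀,
    hcast.eventually_ge_atTop n₀] with n h2 h4 h5 h6 p h1 h1'
  have hn : (0 : ℝ) < n := by exact_mod_cast h2
  have : Nonempty (Fin n) := ⟨⟨0, h2⟩⟩
  have hp1 : (p : ℝ) ≤ 1 := p.2.2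
  have hp0 : (0 : ℝ) < p := lt_of_lt_of_le (by positivity) h1
  have h3 : c * (n : ℝ) ^ (2 - 1 / m) ≤ (p : ℝ) * (n : ℝ) ^ 2 := by
    have h3 : (n : ℝ) ^ (2 - 1 / m) = (n : ℝ) ^ (-1 / m) * (n : ℝ) ^ 2 := by
      have : (2 - 1 / m : ℝ) = -1 / m + (2 : ℕ) := by push_cast; ring
      rw [this, Real.rpow_add hn, Real.rpow_natCast]
    rw [h3, ← mul_assoc]
    exact mul_le_mul_of_nonneg_right h1 (by positivity)
  have hcoren := hcore (Fin n) (p : ℝ) hp0 hp1 (by rwa [Fintype.card_fin])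
    (by rw [Fintype.card_fin]; exact h5.trans h3) (by
      intro j
      rw [Fintype.card_fin]
      have hv2 := two_le_vs (hAd j) Subset.rfl (hne j)
      have he1 : 1 ≤ (A j).card := card_pos.2 (hne j)
      obtain ⟨v', hv'⟩ : ∃ v', (vs (A j)).card = v' + 2 := ⟨_, (Nat.sub_add_cancel hv2).symm⟩
      obtain ⟨e', he'⟩ : ∃ e', (A j).card = e' + 1 := ⟨_, (Nat.sub_add_cancel he1).symm⟩
      have hz := (hzero j).2.2
      rw [hv', he'] at hz ⊢
      have hz' : (e' : ℝ) = m * v' := by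
        push_cast at hz
        linarith
      have h7 := as_le hm0 hC.le hn hp0.le h1' v' e' hz'
      have h8 : C ^ e' ≤ C₁ := by
        rw [hC₁]
        have h9 : e' ≤ (ef H).card := by
          have := card_le_card (hAE j)
          omega
        calc C ^ e' ≤ (max 1 C) ^ e' := pow_le_pow_left₀ hC.le (le_max_right _ _) _
          _ ≤ (max 1 C) ^ (ef H).card := pow_le_pow_right₀ (le_max_left _ _) h9
      calc (n : ℝ) ^ (v' + 2) * (p : ℝ) ^ (e' + 1) =
          ((n : ℝ) ^ v' * (p : ℝ) ^ e') * ((p : ℝ) * (n : ℝ) ^ 2) := by ring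
        _ ≤ C₁ * ((p : ℝ) * (n : ℝ) ^ 2) :=
            mul_le_mul_of_nonneg_right (h7.trans h8) (by positivity)) (by
      intro J hJ2
      rw [Fintype.card_fin]
      exact h4 J hJ2 p h1)
  refine (prob_bound p _ (BadE (ef H) ε δ (p : ℝ)) ?_).trans ?_
  · intro G hG
    refine bridge H hV ?_
    rw [Fintype.card_fin]
    exact hG
  · refine ENNReal.ofReal_le_ofReal (hcoren.trans ?_)
    rw [Fintype.card_fin]

/-- uniform bounds of the failure probability -/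
def Bound (H : SimpleGraph V) (ε δ a γ : ℝ) : Prop :=
  ∀ᶠ n : ℕ in atTop, ∀ p : unitInterval,
    SimpleGraph.binomialRandom (Fin n) p {G₀ | RemProp H ε δ p G₀}ᶜ ≤
      ENNReal.ofReal (min (Real.exp (-(a * ((p:ℝ) * (n:ℝ) ^ 2)))) ((n:ℝ) ^ (-γ)))

theorem exp_le_rpow {a b γ : ℝ} (ha : 0 < a) (hb : 0 < b) :
    ∀ᶠ n : ℕ in atTop, Real.exp (-(a * (n:ℝ) ^ b)) ≤ (n:ℝ) ^ (-γ) := by
  have hcast : Tendsto (fun n : ℕ => (n : ℝ)) atTop atTop := tendsto_natCast_atTop_atTop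
  have h1 : Tendsto (fun n : ℕ => ((n:ℝ) ^ b) ^ (γ / b) * Real.exp (-a * (n:ℝ) ^ b)) atTop
      (𝓝 0) :=
    (tendsto_rpow_mul_exp_neg_mul_atTop_nhds_zero (γ / b) a ha).comp
      ((tendsto_rpow_atTop hb).comp hcast)
  filter_upwards [h1.eventually_le_const one_pos, eventually_gt_atTop 0] with n h2 h3
  have hn : (0 : ℝ) < n := by exact_mod_cast h3
  rw [← Real.rpow_mul hn.le, mul_div_cancel₀ _ hb.ne'] at h2
  rw [Real.rpow_neg hn.le, ← neg_mul, ← one_div, le_div_iff₀ (by positivity), mul_comm]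
  exact h2

/-- The removal property for all edge probabilities, the main case. -/
theorem all_dense (H : SimpleGraph V) (hE : (ef H).Nonempty) {m : ℝ} (hm : 1 / 2 < m)
    {A : Finset (Sym2 V)} {S : Finset V} (hA : A ⊆ ef H) (hS : ∀ e ∈ A, ∀ a ∈ e, a ∈ S)
    (h3 : 3 ≤ S.card) (heq : (A.card : ℝ) - 1 = m * ((S.card : ℝ) - 2))
    (hd : Dens (ef H) m) {ε : ℝ} (hε : 0 < ε) :
    ∃ δ a γ : ℝ, 0 < δ ∧ 0 < a ∧ 0 < γ ∧ Bound H ε δ a γ := by
  classical
  have hm0 : 0 < m := by linarith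
  obtain ⟨c, a₁, hc, ha₁, hsmall⟩ := small H hm hA hS h3 heq hε
  obtain ⟨δ₃, L, μ₀, n₀, a₃, hδ₃, ha₃, hlarge⟩ := large H hE hε
  set C : ℝ := max 1 L with hC
  have hC1 : 1 ≤ C := le_max_left _ _
  have hCL : L ≤ C := le_max_right _ _
  have hC0 : 0 < C := by linarith
  obtain ⟨δ₂, a₂, hδ₂, ha₂, hmid⟩ := window H hE hm hd hε hc hC0
  have hexp : 0 < 2 - 1 / m := by
    have : 1 / m < 2 := by
      rw [div_lt_iff₀ hm0]
      linarith
    linarith
  set a : ℝ := min a₁ (min a₂ a₃) with ha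
  have ha0 : 0 < a := lt_min ha₁ (lt_min ha₂ ha₃)
  refine ⟨min δ₂ δ₃, a, (2 - 1 / m) / 2, lt_min hδ₂ hδ₃, ha0, by positivity, ?_⟩
  have hcast : Tendsto (fun n : ℕ => (n : ℝ)) atTop atTop := tendsto_natCast_atTop_atTop
  have hμlim : Tendsto (fun n : ℕ => (n : ℝ) ^ (2 - 1 / m)) atTop atTop :=
    (tendsto_rpow_atTop hexp).comp hcast
  filter_upwards [eventually_gt_atTop 0, hcast.eventually_ge_atTop n₀,
    hμlim.eventually_ge_atTop μ₀, hmid,
    exp_le_rpow (a := a) (b := (2 - 1 / m) / 4) (γ := (2 - 1 / m) / 2) ha0 (by positivity)]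
    with n hn0 hn1 hn2 hmidn hexpn p
  have hn : (0 : ℝ) < n := by exact_mod_cast hn0
  have hn1' : (1 : ℝ) ≤ n := by exact_mod_cast hn0
  have hpn : (0:ℝ) ≤ p := p.2.1
  have hx : (0:ℝ) ≤ (p : ℝ) * (n : ℝ) ^ 2 := by positivity
  have key : SimpleGraph.binomialRandom (Fin n) p {G₀ | RemProp H ε (min δ₂ δ₃) p G₀}ᶜ ≤
      ENNReal.ofReal (Real.exp (-(a * ((p:ℝ) * (n:ℝ) ^ 2)))) := by
    have hmono : ∀ a' : ℝ, a ≤ a' → ENNReal.ofReal (Real.exp (-(a' * ((p:ℝ) * (n:ℝ) ^ 2)))) ≤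
        ENNReal.ofReal (Real.exp (-(a * ((p:ℝ) * (n:ℝ) ^ 2)))) := fun a' h =>
      ENNReal.ofReal_le_ofReal (Real.exp_le_exp.2 (neg_le_neg
        (mul_le_mul_of_nonneg_right h hx)))
    by_cases h1 : (p : ℝ) ≤ c * (n : ℝ) ^ (-1 / m)
    · exact ((hsmall _ n p hn0).1 h1).trans (hmono a₁ (min_le_left _ _))
    · push Not at h1
      by_cases h2 : (p : ℝ) ≤ C * (n : ℝ) ^ (-1 / m)
      · refine le_trans (fail_mono p (min_le_left δ₂ δ₃)) ((hmidn p h1.le h2).trans ?_)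
        exact hmono a₂ ((min_le_right _ _).trans (min_le_left _ _))
      · push Not at h2
        have hp0 : (0:ℝ) < p := lt_trans (by positivity) h2
        have h4 : (n : ℝ) ^ (2 - 1 / m) ≤ (p : ℝ) * (n : ℝ) ^ 2 := by
          have h5 : (n : ℝ) ^ (2 - 1 / m) = (n : ℝ) ^ (-1 / m) * (n : ℝ) ^ 2 := by
            have : (2 - 1 / m : ℝ) = -1 / m + (2 : ℕ) := by push_cast; ring
            rw [this, Real.rpow_add hn, Real.rpow_natCast]
          rw [h5]
          refine mul_le_mul_of_nonneg_right ?_ (by positivity)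
          have h6 : (0:ℝ) ≤ (n : ℝ) ^ (-1 / m) := by positivity
          nlinarith
        have h5 := hlarge n p hn0 hp0 hn1 (hn2.trans h4) (fun B hB hB2 => by
          have hb3 := three_le_vs hB hB2
          have hdB := hd B hB (vs B) (fun e he a ha => mem_vs.2 ⟨e, he, ha⟩) (by omega)
          obtain ⟨b', hb'⟩ : ∃ b', (vs B).card = b' + 2 :=
            ⟨_, (Nat.sub_add_cancel (by omega)).symm⟩
          obtain ⟨e', he'⟩ : ∃ e', B.card = e' + 1 := ⟨_, (Nat.sub_add_cancel (by omega)).symm⟩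
          rw [hb', he'] at hdB ⊢
          push_cast at hdB
          have h6 := as_ge hm0 hC0 hn h2.le b' e'
          have h7 : 1 ≤ (n : ℝ) ^ ((b' : ℝ) - e' / m) := by
            refine Real.one_le_rpow hn1' ?_
            have : (e' : ℝ) / m ≤ b' := by
              rw [div_le_iff₀ hm0]
              linarith
            linarith
          have h8 : C ≤ C ^ e' := by
            calc C = C ^ 1 := (pow_one C).symm
              _ ≤ C ^ e' := pow_le_pow_right₀ hC1 (by omega)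
          have h9 : L ≤ (n : ℝ) ^ b' * (p : ℝ) ^ e' := by
            calc L ≤ C := hCL
              _ ≤ C ^ e' * 1 := by rw [mul_one]; exact h8
              _ ≤ C ^ e' * (n : ℝ) ^ ((b' : ℝ) - e' / m) :=
                  mul_le_mul_of_nonneg_left h7 (by positivity)
              _ ≤ _ := h6
          calc L * ((p : ℝ) * (n : ℝ) ^ 2) ≤
              ((n : ℝ) ^ b' * (p : ℝ) ^ e') * ((p : ℝ) * (n : ℝ) ^ 2) :=
                mul_le_mul_of_nonneg_right h9 (by positivity)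
            _ = _ := by ring)
        refine le_trans (fail_mono p (min_le_right δ₂ δ₃)) (h5.trans ?_)
        exact hmono a₃ ((min_le_right _ _).trans (min_le_right _ _))
  rcases le_total ((p : ℝ) * (n:ℝ) ^ 2) ((n:ℝ) ^ ((2 - 1 / m) / 4)) with h1 | h1
  · have h2 := (hsmall (min δ₂ δ₃) n p hn0).2 h1
    rcases min_choice (Real.exp (-(a * ((p:ℝ) * (n:ℝ) ^ 2)))) ((n:ℝ) ^ (-((2 - 1 / m) / 2)))
      with h3 | h3
    · rw [h3]; exact key
    · rw [h3]; exact h2
  · have hle : Real.exp (-(a * ((p:ℝ) * (n:ℝ) ^ 2))) ≤ (n:ℝ) ^ (-((2 - 1 / m) / 2)) :=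
      le_trans (Real.exp_le_exp.2 (neg_le_neg (mul_le_mul_of_nonneg_left h1 ha0.le))) hexpn
    rw [min_eq_left hle]
    exact key

/-- The removal property for all edge probabilities, the case of matchings. -/
theorem all_matching (H : SimpleGraph V) (h2 : 2 ≤ (ef H).card)
    (hd : Dens (ef H) (1 / 2)) {ε : ℝ} (hε : 0 < ε) :
    ∃ δ a γ : ℝ, 0 < δ ∧ 0 < a ∧ 0 < γ ∧ Bound H ε δ a γ := by
  classical
  have hE : (ef H).Nonempty := card_pos.1 (by omega)
  have hM : Mat (ef H) := by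
    intro e he e' he' x hx hx'
    by_contra hne
    have hsub : ({e, e'} : Finset (Sym2 V)) ⊆ ef H := by
      intro f hf
      rcases mem_insert.1 hf with rfl | hf
      · exact he
      · rw [mem_singleton.1 hf]; exact he'
    have hc2 : ({e, e'} : Finset (Sym2 V)).card = 2 := card_pair hne
    obtain ⟨y, rfl⟩ := Sym2.mem_iff_exists.1 hx
    obtain ⟨z, rfl⟩ := Sym2.mem_iff_exists.1 hx'
    have h3 : (vs ({s(x, y), s(x, z)} : Finset (Sym2 V))).card ≤ 3 := by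
      have h4 : vs ({s(x, y), s(x, z)} : Finset (Sym2 V)) ⊆ {x, y, z} := by
        intro w hw
        obtain ⟨f, hf, hwf⟩ := mem_vs.1 hw
        simp only [mem_insert, mem_singleton] at hf ⊢
        rcases hf with rfl | rfl
        · rw [Sym2.mem_iff] at hwf
          tauto
        · rw [Sym2.mem_iff] at hwf
          tauto
      exact (card_le_card h4).trans card_le_three
    have h5 := three_le_vs hsub (by rw [hc2])
    have h6 := hd _ hsub (vs ({s(x, y), s(x, z)} : Finset (Sym2 V)))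
      (fun f hf w hw => mem_vs.2 ⟨f, hf, hw⟩) (by omega)
    have h7 : (vs ({s(x, y), s(x, z)} : Finset (Sym2 V))).card = 3 := by omega
    rw [hc2, h7] at h6
    norm_num at h6
  obtain ⟨δ₁, hδ₁, hmat⟩ := matching_rem H hE hM hε
  obtain ⟨δ₃, L, μ₀, n₀, a, hδ₃, ha, hlarge⟩ := large H hE hε
  refine ⟨min δ₁ δ₃, a, 1 / 2, lt_min hδ₁ hδ₃, ha, by norm_num, ?_⟩
  have hcast : Tendsto (fun n : ℕ => (n : ℝ)) atTop atTop := tendsto_natCast_atTop_atTop
  set K : ℝ := max 1 (max L μ₀) with hK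
  have hK1 : 1 ≤ K := le_max_left _ _
  have hKL : L ≤ K := (le_max_left _ _).trans (le_max_right _ _)
  have hKμ : μ₀ ≤ K := (le_max_right _ _).trans (le_max_right _ _)
  filter_upwards [eventually_gt_atTop 0, eventually_ge_atTop (2 * Fintype.card V),
    hcast.eventually_ge_atTop n₀, hcast.eventually_ge_atTop (K ^ 2 * Real.exp (a * K)),
    exp_le_rpow (a := a) (b := 1 / 4) (γ := 1 / 2) ha (by norm_num)]
    with n hn0 hnV hn1 hn2 hexpn p
  have hn : (0 : ℝ) < n := by exact_mod_cast hn0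
  have hn1' : (1 : ℝ) ≤ n := by exact_mod_cast hn0
  have hp0 : (0:ℝ) ≤ p := p.2.1
  have hx : (0:ℝ) ≤ (p : ℝ) * (n : ℝ) ^ 2 := by positivity
  have hbd : SimpleGraph.binomialRandom (Fin n) p {G₀ | RemProp H ε (min δ₁ δ₃) p G₀}ᶜ ≤
      ENNReal.ofReal (((p : ℝ) * (n : ℝ) ^ 2) ^ 2 / n) := by
    have h3 : SimpleGraph.binomialRandom (Fin n) p
        {G₀ | RemProp H ε (min δ₁ δ₃) p G₀}ᶜ ≤
        SimpleGraph.binomialRandom (Fin n) p {G₀ : SimpleGraph (Fin n) | Mat (ef G₀)}ᶜ := by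
      refine MeasureTheory.measure_mono (Set.compl_subset_compl.2 fun G₀ hG => ?_)
      exact rem_mono hp0 (min_le_left _ _) (hmat n hnV hn0 p hp0 G₀ hG)
    refine h3.trans ((prob_not_matching n p).trans (ENNReal.ofReal_le_ofReal (le_of_eq ?_)))
    field_simp
  have key : SimpleGraph.binomialRandom (Fin n) p {G₀ | RemProp H ε (min δ₁ δ₃) p G₀}ᶜ ≤
      ENNReal.ofReal (Real.exp (-(a * ((p:ℝ) * (n:ℝ) ^ 2)))) := by
    rcases le_total K ((p : ℝ) * (n : ℝ) ^ 2) with h1 | h1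
    · have hx1 : 1 ≤ (p : ℝ) * (n : ℝ) ^ 2 := hK1.trans h1
      have hpp : (0:ℝ) < p := by
        rcases eq_or_lt_of_le hp0 with h | h
        · rw [← h, zero_mul] at hx1
          linarith
        · exact h
      have h5 := hlarge n p hn0 hpp hn1 (hKμ.trans h1) (fun B hB hB2 => by
        have hb3 := three_le_vs hB hB2
        have hdB := hd B hB (vs B) (fun e he a ha => mem_vs.2 ⟨e, he, ha⟩) (by omega)
        obtain ⟨e', he'⟩ : ∃ e', B.card = e' + 1 := ⟨_, (Nat.sub_add_cancel (by omega)).symm⟩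
        have hb2 : 2 * B.card ≤ (vs B).card := by
          have h6 : (2:ℝ) * B.card ≤ (vs B).card := by linarith
          exact_mod_cast h6
        have h7 : L ≤ ((p : ℝ) * (n : ℝ) ^ 2) ^ e' := by
          calc L ≤ (p : ℝ) * (n : ℝ) ^ 2 := hKL.trans h1
            _ = ((p : ℝ) * (n : ℝ) ^ 2) ^ 1 := (pow_one _).symm
            _ ≤ _ := pow_le_pow_right₀ hx1 (by omega)
        calc L * ((p : ℝ) * (n : ℝ) ^ 2) ≤
            ((p : ℝ) * (n : ℝ) ^ 2) ^ e' * ((p : ℝ) * (n : ℝ) ^ 2) :=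
              mul_le_mul_of_nonneg_right h7 (by positivity)
          _ = (n : ℝ) ^ (2 * B.card) * (p : ℝ) ^ B.card := by
              rw [he', pow_mul]
              ring
          _ ≤ (n : ℝ) ^ (vs B).card * (p : ℝ) ^ B.card :=
              mul_le_mul_of_nonneg_right (pow_le_pow_right₀ hn1' hb2) (by positivity))
      exact le_trans (fail_mono p (min_le_right δ₁ δ₃)) h5
    · refine hbd.trans (ENNReal.ofReal_le_ofReal ?_)
      have h3 : ((p : ℝ) * (n : ℝ) ^ 2) ^ 2 / n ≤ Real.exp (-(a * K)) := by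
        rw [div_le_iff₀ hn, Real.exp_neg, ← div_eq_inv_mul, le_div_iff₀ (Real.exp_pos _)]
        refine le_trans ?_ hn2
        refine mul_le_mul_of_nonneg_right ?_ (Real.exp_pos _).le
        exact pow_le_pow_left₀ hx h1 2
      refine h3.trans (Real.exp_le_exp.2 (neg_le_neg ?_))
      exact mul_le_mul_of_nonneg_left h1 ha.le
  rcases le_total ((p : ℝ) * (n : ℝ) ^ 2) ((n : ℝ) ^ (1 / 4 : ℝ)) with h1 | h1
  · have h4 : ((p : ℝ) * (n : ℝ) ^ 2) ^ 2 / n ≤ (n : ℝ) ^ (-(1 / 2 : ℝ)) := by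
      have h6 : ((p : ℝ) * (n : ℝ) ^ 2) ^ 2 ≤ (n : ℝ) ^ (1 / 2 : ℝ) := by
        calc ((p : ℝ) * (n : ℝ) ^ 2) ^ 2 ≤ ((n : ℝ) ^ (1 / 4 : ℝ)) ^ 2 :=
              pow_le_pow_left₀ (by positivity) h1 2
          _ = (n : ℝ) ^ (1 / 2 : ℝ) := by
              rw [← Real.rpow_natCast, ← Real.rpow_mul hn.le]
              norm_num
      rw [div_le_iff₀ hn]
      refine h6.trans (le_of_eq ?_)
      have h7 : (n : ℝ) ^ (-(1 / 2 : ℝ)) * n = (n : ℝ) ^ (-(1 / 2 : ℝ)) * (n : ℝ) ^ (1 : ℝ) := by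
        rw [Real.rpow_one]
      rw [h7, ← Real.rpow_add hn]
      norm_num
    rcases min_choice (Real.exp (-(a * ((p:ℝ) * (n:ℝ) ^ 2)))) ((n:ℝ) ^ (-(1 / 2 : ℝ)))
      with h3 | h3
    · rw [h3]; exact key
    · rw [h3]; exact hbd.trans (ENNReal.ofReal_le_ofReal h4)
  · have hle : Real.exp (-(a * ((p:ℝ) * (n:ℝ) ^ 2))) ≤ (n:ℝ) ^ (-(1 / 2 : ℝ)) :=
      le_trans (Real.exp_le_exp.2 (neg_le_neg (mul_le_mul_of_nonneg_left h1 ha.le))) hexpn
    rw [min_eq_left hle]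
    exact key

/-- **The sparse random removal lemma** for all edge probabilities, with the probability. -/
theorem all_p (H : SimpleGraph V) (hE : (ef H).Nonempty) {ε : ℝ} (hε : 0 < ε) :
    ∃ δ a γ : ℝ, 0 < δ ∧ 0 < a ∧ 0 < γ ∧ Bound H ε δ a γ := by
  classical
  rcases Nat.lt_or_ge (ef H).card 2 with h1 | h2
  · have hE1 : (ef H).card = 1 := by have := card_pos.2 hE; omega
    obtain ⟨δ, hδ, h⟩ := case1 H hE1 hε
    refine ⟨δ, 1, 1, hδ, one_pos, one_pos, ?_⟩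
    filter_upwards [eventually_ge_atTop (2 * Fintype.card V), eventually_gt_atTop 0] with n h3 h4 p
    have : {G₀ : SimpleGraph (Fin n) | RemProp H ε δ p G₀} = Set.univ :=
      Set.eq_univ_of_forall (fun G₀ => h n h3 h4 _ p.2.1 G₀)
    rw [this, Set.compl_univ, MeasureTheory.measure_empty]
    exact zero_le
  · obtain ⟨m, A, S, hA, hS, h3, heq, hm, hmax⟩ := exists_dens H h2
    have hd := dens_of hmax
    rcases lt_or_eq_of_le hm with hlt | rfl
    · exact all_dense H hE hlt hA hS h3 heq hd hε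
    · exact all_matching H h2 hd hε

omit [DecidableEq V] in
theorem Bound.tendsto {H : SimpleGraph V} {ε δ a γ : ℝ} (hγ : 0 < γ) (h : Bound H ε δ a γ)
    (p : ℕ → unitInterval) :
    Tendsto (fun n : ℕ => SimpleGraph.binomialRandom (Fin n) (p n)
        {G₀ | RemProp H ε δ (p n) G₀}) atTop (𝓝 1) := by
  have hcast : Tendsto (fun n : ℕ => (n : ℝ)) atTop atTop := tendsto_natCast_atTop_atTop
  have hf : Tendsto (fun n : ℕ => ENNReal.ofReal ((n : ℝ) ^ (-γ))) atTop (𝓝 0) := by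
    have h1 : Tendsto (fun n : ℕ => (n : ℝ) ^ (-γ)) atTop (𝓝 0) :=
      (tendsto_rpow_neg_atTop hγ).comp hcast
    have := ENNReal.tendsto_ofReal h1
    rwa [ENNReal.ofReal_zero] at this
  refine tendsto_of_compl (tendsto_of_tendsto_of_tendsto_of_le_of_le' tendsto_const_nhds hf
    (Eventually.of_forall fun n => zero_le) ?_)
  filter_upwards [h] with n hn
  exact (hn (p n)).trans (ENNReal.ofReal_le_ofReal (min_le_right _ _))

end Pool.Agent.KS6_83.SR
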